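import Mathlib
import Pool.Agent.Lead.Par3

set_option autoImplicit false

namespace Pool.Agent.Results.MP_471f68_co.Spans

open Pool.Agent.Lead.Par

/-- The normal `n^j = (a^j_1, …, a^j_{d-1}, 1)` of the face `j`. -/
noncomputable def normal {F : Type} (d : ℕ) (a : F × Fin (d - 1) → ℝ) (j : F) (c : Fin d) : ℝ :=
  if h : c.val < d - 1 then a (j, ⟨c.val, h⟩) else 1

/-- Row of the pair `e = (i, j)` in the parallel `d`-scene matrix: entry `1` in column `D^j`,
the vector `n^j` in the `d` columns of vertex `i`, and `0` elsewhere. -/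
noncomputable def sceneRow {V F : Type} [DecidableEq V] [DecidableEq F] (d : ℕ)
    (a : F × Fin (d - 1) → ℝ) (e : V × F) : F ⊕ (V × Fin d) → ℝ :=
  Sum.elim (fun j => if j = e.2 then 1 else 0)
    (fun q => if q.1 = e.1 then normal d a e.2 q.2 else 0)

/-- The bipartite incidence graph on `V ⊔ F` with edge set `I`. -/
def incidenceGraph {V F : Type} (I : Finset (V × F)) : SimpleGraph (V ⊕ F) :=
  SimpleGraph.fromRel (fun x y => ∃ p ∈ I, x = Sum.inl p.1 ∧ y = Sum.inr p.2)

/-- `k`-vertex-connected: more than `k` vertices, connected after deleting fewer than `k`. -/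
def VertexConnected {W : Type} [Fintype W] (G : SimpleGraph W) (k : ℕ) : Prop :=
  k < Fintype.card W ∧ ∀ X : Finset W, X.card < k → (G.induce ((↑X : Set W)ᶜ)).Connected

theorem result (d : ℕ) (hd : 2 ≤ d) (V F : Type) [Fintype V] [Fintype F] [DecidableEq V]
    [DecidableEq F] (I : Finset (V × F)) (hI : VertexConnected (incidenceGraph I) (2 * d))
    (a : F × Fin (d - 1) → ℝ) (ha : AlgebraicIndependent ℚ a) :
    Module.finrank ℝ (Submodule.span ℝ (sceneRow d a '' (I : Set (V × F)))) =
      Module.finrank ℝ (Submodule.span ℝ (Set.range (sceneRow (V := V) d a))) := by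
  obtain ⟨k, rfl⟩ : ∃ k, d = k + 1 := ⟨d - 1, by omega⟩
  have h := main (gen_alg (V := V) (k := k) a ha) I hI.2
  unfold rk at h
  rw [span_mrow, span_mrow, Finset.coe_univ, Set.image_univ] at h
  exact h

end Pool.Agent.Results.MP_471f68_co.Spans
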